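import Mathlib

set_option autoImplicit false

/-!
# MP_21d1af_co: two-dimensional `k`-piercing partitions into proper boxes

For every `k ≥ 2` the least number of proper boxes in a partition of `[n]²` with the `k`-piercing
property is `4 (k - 1)` for all `n ≥ 2 (k - 1)`; hence `p_box(2, k) = 4 (k - 1)`.

Proof of the lower bound. Let `P` be such a partition, `m = |P|`. Choose an irredundant family of
`h` rows, and one of `v` columns, such that every part meets one of the rows and one of the columns.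
If the part `B` meets `ρ B` of the rows and `γ B` of the columns, then `ρ B, γ B ≥ 1`, and
`∑ ρ B γ B = h v` since every row and every column have one common cell. Hence
`h v ≥ ∑ (ρ B + γ B - 1) ≥ (h + v) k - m`. On the other hand the indicator vectors in `ℚ ^ P` of
the sets of the parts which meet a given row, or a given column, satisfy `⟨S_r, T_c⟩ = 1`, and each
of the two families is linearly independent (it is irredundant), so that the vectors `S_r - S_(r₀)`
and `T_c` are linearly independent: `h + v ≤ m + 1`. The two inequalities give `m ≥ 4 (k - 1)`.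
-/

namespace Pool.Agent.Results.MP_21d1af_co.BoxPiercing

open Finset Filter Topology

/-! ### Definitions -/

/-- A proper box of the grid `[n]²`: a product `B₁ × B₂` of two nonempty sets of coordinates, both
different from `[n]`. -/
def IsProperBox {n : ℕ} (B : Finset (Fin n × Fin n)) : Prop :=
  ∃ B₁ B₂ : Finset (Fin n), B₁.Nonempty ∧ B₂.Nonempty ∧ B₁ ≠ univ ∧ B₂ ≠ univ ∧ B = B₁ ×ˢ B₂

/-- The row `[n] × {j}`. -/
def row {n : ℕ} (j : Fin n) : Finset (Fin n × Fin n) := univ ×ˢ {j}

/-- The column `{i} × [n]`. -/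
def column {n : ℕ} (i : Fin n) : Finset (Fin n × Fin n) := {i} ×ˢ univ

/-- `P` is a partition of `[n]²` into proper boxes with the `k`-piercing property: every
axis-parallel line meets at least `k` parts. -/
structure IsPiercingPartition (n k : ℕ) (P : Finset (Finset (Fin n × Fin n))) : Prop where
  proper : ∀ B ∈ P, IsProperBox B
  partition : ∀ x : Fin n × Fin n, ∃! B, B ∈ P ∧ x ∈ B
  rows : ∀ j : Fin n, k ≤ (P.filter fun B => (B ∩ row j).Nonempty).card
  columns : ∀ i : Fin n, k ≤ (P.filter fun B => (B ∩ column i).Nonempty).card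

/-- `p_box(n, 2, k)`: the least number of parts of a partition of `[n]²` into proper boxes with the
`k`-piercing property. -/
noncomputable def pBox (n k : ℕ) : ℕ :=
  sInf {m : ℕ | ∃ P : Finset (Finset (Fin n × Fin n)), IsPiercingPartition n k P ∧ P.card = m}

/-! ### The lower bound -/

section lower

variable {ι ρ κ : Type} [DecidableEq ι] [DecidableEq ρ] [DecidableEq κ]

/-- An irredundant subfamily with the same union. -/
lemma exists_cover [Fintype ρ] (P : Finset ι) (S : ρ → Finset ι)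
    (hS : ∀ i ∈ P, ∃ r, i ∈ S r) :
    ∃ R : Finset ρ, (∀ i ∈ P, ∃ r ∈ R, i ∈ S r) ∧
      ∀ r ∈ R, ∃ i ∈ P, i ∈ S r ∧ ∀ r' ∈ R, r' ≠ r → i ∉ S r' := by
  classical
  have hne : (univ.filter fun R : Finset ρ => ∀ i ∈ P, ∃ r ∈ R, i ∈ S r).Nonempty :=
    ⟨univ, by simpa using hS⟩
  obtain ⟨R, hR, hmin⟩ := Finset.exists_min_image _ Finset.card hne
  rw [mem_filter] at hR
  refine ⟨R, hR.2, fun r hr => ?_⟩
  by_contra hcon
  push Not at hcon
  have hcov : ∀ i ∈ P, ∃ r' ∈ R.erase r, i ∈ S r' := by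
    intro i hi
    obtain ⟨r1, hr1, hi1⟩ := hR.2 i hi
    by_cases h : r1 = r
    · subst h
      obtain ⟨r2, hr2, hne2, hi2⟩ := hcon i hi hi1
      exact ⟨r2, mem_erase.2 ⟨hne2, hr2⟩, hi2⟩
    · exact ⟨r1, mem_erase.2 ⟨h, hr1⟩, hi1⟩
  have h1 := hmin (R.erase r) (mem_filter.2 ⟨mem_univ _, hcov⟩)
  have h2 := Finset.card_erase_lt_of_mem hr
  omega

omit [DecidableEq κ] in
lemma rank_bound (P : Finset ι) (S : ρ → Finset ι) (T : κ → Finset ι)
    (hST : ∀ r c, (P.filter fun i => i ∈ S r ∧ i ∈ T c).card = 1)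
    (R : Finset ρ) (C : Finset κ) (r₀ : ρ) (hr₀ : r₀ ∈ R)
    (hR : ∀ r ∈ R, ∃ i ∈ P, i ∈ S r ∧ ∀ r' ∈ R, r' ≠ r → i ∉ S r')
    (hC : ∀ c ∈ C, ∃ i ∈ P, i ∈ T c ∧ ∀ c' ∈ C, c' ≠ c → i ∉ T c') :
    R.card + C.card ≤ P.card + 1 := by
  classical
  let s : ρ → P → ℚ := fun r i => if (i : ι) ∈ S r then 1 else 0
  let t : κ → P → ℚ := fun c i => if (i : ι) ∈ T c then 1 else 0
  have hst : ∀ r c, ∑ i : P, s r i * t c i = 1 := by
    intro r c
    have h1 : ∀ i : P, s r i * t c i = if ((i : ι) ∈ S r ∧ (i : ι) ∈ T c) then (1 : ℚ) else 0 := by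
      intro i
      simp only [s, t]
      by_cases h1 : (i : ι) ∈ S r <;> by_cases h2 : (i : ι) ∈ T c <;> simp [h1, h2]
    rw [Finset.sum_congr rfl fun i _ => h1 i]
    rw [Finset.sum_coe_sort P (fun i => if (i ∈ S r ∧ i ∈ T c) then (1 : ℚ) else 0)]
    rw [Finset.sum_ite, Finset.sum_const_zero, add_zero, Finset.sum_const, hST r c]
    simp
  let v : (↥(R.erase r₀)) ⊕ ↥C → (P → ℚ) := fun x =>
    match x with
    | Sum.inl r => s r - s r₀
    | Sum.inr c => t c
  have hli : LinearIndependent ℚ v := by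
    rw [Fintype.linearIndependent_iff]
    intro g hg
    rw [Fintype.sum_sum_type] at hg
    set x : P → ℚ := ∑ r : ↥(R.erase r₀), g (Sum.inl r) • (s r - s r₀) with hx
    set y : P → ℚ := ∑ c : ↥C, g (Sum.inr c) • t c with hy
    have hxy : x + y = 0 := hg
    have hdot : ∑ i : P, x i * y i = 0 := by
      have h1 : ∀ c : κ, ∑ i : P, x i * t c i = 0 := by
        intro c
        have h2 : ∀ i : P, x i * t c i = ∑ r : ↥(R.erase r₀),
            g (Sum.inl r) * ((s r i - s r₀ i) * t c i) := by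
          intro i
          rw [hx, Finset.sum_apply, Finset.sum_mul]
          refine Finset.sum_congr rfl fun r _ => ?_
          simp only [Pi.smul_apply, Pi.sub_apply, smul_eq_mul]
          ring
        rw [Finset.sum_congr rfl fun i _ => h2 i, Finset.sum_comm]
        refine Finset.sum_eq_zero fun r _ => ?_
        rw [← Finset.mul_sum]
        have h3 : ∑ i : P, (s r i - s r₀ i) * t c i = 0 := by
          have : ∀ i : P, (s r i - s r₀ i) * t c i = s r i * t c i - s r₀ i * t c i := by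
            intro i; ring
          rw [Finset.sum_congr rfl fun i _ => this i, Finset.sum_sub_distrib, hst, hst, sub_self]
        rw [h3, mul_zero]
      have h4 : ∀ i : P, x i * y i = ∑ c : ↥C, g (Sum.inr c) * (x i * t c i) := by
        intro i
        rw [hy, Finset.sum_apply, Finset.mul_sum]
        refine Finset.sum_congr rfl fun c _ => ?_
        simp only [Pi.smul_apply, smul_eq_mul]
        ring
      rw [Finset.sum_congr rfl fun i _ => h4 i, Finset.sum_comm]
      refine Finset.sum_eq_zero fun c _ => ?_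
      rw [← Finset.mul_sum, h1, mul_zero]
    have hyx : ∀ i, y i = - x i := by
      intro i
      have := congrFun hxy i
      simp only [Pi.add_apply, Pi.zero_apply] at this
      linarith
    have hx0 : ∀ i, x i = 0 := by
      have h5 : ∑ i : P, x i * x i = 0 := by
        have : ∑ i : P, x i * x i = - ∑ i : P, x i * y i := by
          rw [← Finset.sum_neg_distrib]
          refine Finset.sum_congr rfl fun i _ => ?_
          rw [hyx i]; ring
        rw [this, hdot, neg_zero]
      intro i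
      have h6 := (Finset.sum_eq_zero_iff_of_nonneg (fun i _ => mul_self_nonneg (x i))).1 h5 i
        (mem_univ i)
      exact mul_self_eq_zero.1 h6
    have hy0 : ∀ i, y i = 0 := by
      intro i
      rw [hyx i, hx0 i, neg_zero]
    rintro (⟨r, hr⟩ | ⟨c, hc⟩)
    · have hr' := (mem_erase.1 hr)
      obtain ⟨i, hiP, hir, hio⟩ := hR r hr'.2
      have h7 := hx0 ⟨i, hiP⟩
      rw [hx, Finset.sum_apply] at h7
      rw [Finset.sum_eq_single (⟨r, hr⟩ : ↥(R.erase r₀))] at h7
      · have h8 : s r ⟨i, hiP⟩ = 1 := by simp [s, hir]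
        have h9 : s r₀ ⟨i, hiP⟩ = 0 := by simp [s, hio r₀ hr₀ (Ne.symm hr'.1)]
        simpa [Pi.smul_apply, Pi.sub_apply, h8, h9] using h7
      · rintro ⟨r', hr1⟩ _ hne
        have hne' : r' ≠ r := fun h => hne (by subst h; rfl)
        have h8 : s r' ⟨i, hiP⟩ = 0 := by simp [s, hio r' (mem_erase.1 hr1).2 hne']
        have h9 : s r₀ ⟨i, hiP⟩ = 0 := by simp [s, hio r₀ hr₀ (Ne.symm hr'.1)]
        simp [Pi.smul_apply, Pi.sub_apply, h8, h9]
      · intro h
        exact absurd (mem_univ _) h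
    · obtain ⟨i, hiP, hic, hio⟩ := hC c hc
      have h7 := hy0 ⟨i, hiP⟩
      rw [hy, Finset.sum_apply] at h7
      rw [Finset.sum_eq_single (⟨c, hc⟩ : ↥C)] at h7
      · have h8 : t c ⟨i, hiP⟩ = 1 := by simp [t, hic]
        simpa [Pi.smul_apply, h8] using h7
      · rintro ⟨c', hc1⟩ _ hne
        have hne' : c' ≠ c := fun h => hne (by subst h; rfl)
        have h8 : t c' ⟨i, hiP⟩ = 0 := by simp [t, hio c' hc1 hne']
        simp [Pi.smul_apply, h8]
      · intro h
        exact absurd (mem_univ _) h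
  have h10 := hli.fintype_card_le_finrank
  rw [Module.finrank_fintype_fun_eq_card, Fintype.card_sum, Fintype.card_coe, Fintype.card_coe,
    Fintype.card_coe, Finset.card_erase_of_mem hr₀] at h10
  have h11 : 0 < R.card := Finset.card_pos.2 ⟨r₀, hr₀⟩
  omega

omit [DecidableEq ρ] [DecidableEq κ] in
lemma count_bound (P : Finset ι) (S : ρ → Finset ι) (T : κ → Finset ι)
    (hST : ∀ r c, (P.filter fun i => i ∈ S r ∧ i ∈ T c).card = 1)
    (hSP : ∀ r, S r ⊆ P) (hTP : ∀ c, T c ⊆ P)
    (R : Finset ρ) (C : Finset κ) (k : ℕ) (hSk : ∀ r, k ≤ (S r).card)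
    (hTk : ∀ c, k ≤ (T c).card)
    (hR : ∀ i ∈ P, ∃ r ∈ R, i ∈ S r) (hC : ∀ i ∈ P, ∃ c ∈ C, i ∈ T c) :
    (R.card + C.card) * k ≤ P.card + R.card * C.card := by
  classical
  have h1 : ∑ i ∈ P, (R.filter fun r => i ∈ S r).card * (C.filter fun c => i ∈ T c).card =
      R.card * C.card := by
    have h2 : ∀ i, (R.filter fun r => i ∈ S r).card * (C.filter fun c => i ∈ T c).card =
        ∑ r ∈ R, ∑ c ∈ C, if (i ∈ S r ∧ i ∈ T c) then 1 else 0 := by
      intro i
      rw [Finset.card_filter, Finset.card_filter, Finset.sum_mul_sum]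
      refine Finset.sum_congr rfl fun r _ => Finset.sum_congr rfl fun c _ => ?_
      by_cases h1 : i ∈ S r <;> by_cases h2 : i ∈ T c <;> simp [h1, h2]
    rw [Finset.sum_congr rfl fun i _ => h2 i, Finset.sum_comm]
    have h3 : ∀ r ∈ R, ∑ i ∈ P, ∑ c ∈ C, (if (i ∈ S r ∧ i ∈ T c) then 1 else 0) = C.card := by
      intro r _
      rw [Finset.sum_comm]
      have h4 : ∀ c ∈ C, ∑ i ∈ P, (if (i ∈ S r ∧ i ∈ T c) then 1 else 0) = 1 := by
        intro c _
        rw [← Finset.card_filter]
        exact hST r c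
      rw [Finset.sum_congr rfl h4]
      simp
    rw [Finset.sum_congr rfl h3]
    simp
  have h5 : ∑ i ∈ P, (R.filter fun r => i ∈ S r).card = ∑ r ∈ R, (S r).card := by
    simp_rw [Finset.card_filter]
    rw [Finset.sum_comm]
    refine Finset.sum_congr rfl fun r _ => ?_
    rw [← Finset.card_filter, Finset.filter_mem_eq_inter, Finset.inter_eq_right.2 (hSP r)]
  have h6 : ∑ i ∈ P, (C.filter fun c => i ∈ T c).card = ∑ c ∈ C, (T c).card := by
    simp_rw [Finset.card_filter]
    rw [Finset.sum_comm]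
    refine Finset.sum_congr rfl fun c _ => ?_
    rw [← Finset.card_filter, Finset.filter_mem_eq_inter, Finset.inter_eq_right.2 (hTP c)]
  have h7 : R.card * k ≤ ∑ r ∈ R, (S r).card := by
    rw [← smul_eq_mul]
    exact Finset.card_nsmul_le_sum R _ k fun r _ => hSk r
  have h8 : C.card * k ≤ ∑ c ∈ C, (T c).card := by
    rw [← smul_eq_mul]
    exact Finset.card_nsmul_le_sum C _ k fun c _ => hTk c
  have h9 : ∑ i ∈ P, ((R.filter fun r => i ∈ S r).card + (C.filter fun c => i ∈ T c).card) ≤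
      ∑ i ∈ P, (1 + (R.filter fun r => i ∈ S r).card * (C.filter fun c => i ∈ T c).card) := by
    refine Finset.sum_le_sum fun i hi => ?_
    obtain ⟨r, hr, hir⟩ := hR i hi
    obtain ⟨c, hc, hic⟩ := hC i hi
    have h10 : 1 ≤ (R.filter fun r => i ∈ S r).card :=
      Finset.card_pos.2 ⟨r, mem_filter.2 ⟨hr, hir⟩⟩
    have h11 : 1 ≤ (C.filter fun c => i ∈ T c).card :=
      Finset.card_pos.2 ⟨c, mem_filter.2 ⟨hc, hic⟩⟩
    nlinarith
  rw [Finset.sum_add_distrib, Finset.sum_add_distrib, h1, h5, h6] at h9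
  have h12 : ∑ i ∈ P, 1 = P.card := by simp
  rw [h12] at h9
  rw [add_mul]
  omega

lemma arith (m h v k : ℕ) (hk : 2 ≤ k) (hh : 2 ≤ h) (hv : 2 ≤ v) (h1 : (h + v) * k ≤ m + h * v)
    (h2 : h + v ≤ m + 1) : 4 * (k - 1) ≤ m := by
  obtain ⟨k, rfl⟩ : ∃ l, k = l + 2 := ⟨k - 2, by omega⟩
  by_contra hcon
  push Not at hcon
  have e : k + 2 - 1 = k + 1 := by omega
  rw [e] at hcon
  zify at *
  have h3 : ((h:ℤ) - (k + 2)) * (v - (k + 2)) ≥ k ^ 2 + 1 := by nlinarith
  rcases le_or_gt (h:ℤ) (k + 2) with a | a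
  · rcases le_or_gt (v:ℤ) (k + 2) with b | b
    · have : ((k:ℤ) + 2 - h) * (k + 2 - v) ≤ k * k :=
        mul_le_mul (by linarith) (by linarith) (by linarith) (by positivity)
      nlinarith
    · nlinarith
  · rcases le_or_gt (v:ℤ) (k + 2) with b | b
    · nlinarith
    · have h4 : (h:ℤ) + v ≤ 4 * k + 4 := by linarith
      nlinarith [sq_nonneg ((h:ℤ) - v), mul_pos (sub_pos.2 a) (sub_pos.2 b)]

theorem abstract_bound [Fintype ρ] [Fintype κ] [Nonempty ρ] [Nonempty κ] (P : Finset ι)
    (S : ρ → Finset ι) (T : κ → Finset ι)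
    (hST : ∀ r c, (P.filter fun i => i ∈ S r ∧ i ∈ T c).card = 1)
    (hSP : ∀ r, S r ⊆ P) (hTP : ∀ c, T c ⊆ P) (k : ℕ) (hk : 2 ≤ k) (hSk : ∀ r, k ≤ (S r).card)
    (hTk : ∀ c, k ≤ (T c).card)
    (hR : ∀ i ∈ P, ∃ r, i ∈ S r) (hC : ∀ i ∈ P, ∃ c, i ∈ T c) : 4 * (k - 1) ≤ P.card := by
  classical
  obtain ⟨R, hR1, hR2⟩ := exists_cover P S hR
  obtain ⟨C, hC1, hC2⟩ := exists_cover P T hC
  -- two rows and two columns at least
  have hR3 : 2 ≤ R.card := by
    by_contra hlt
    obtain ⟨c⟩ := ‹Nonempty κ›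
    have h1 : (P.filter fun i => i ∈ T c).card ≤ 1 := by
      rcases Nat.lt_or_ge R.card 1 with h0 | h0
      · have hRe : R = ∅ := Finset.card_eq_zero.1 (by omega)
        have : P.filter (fun i => i ∈ T c) = ∅ := by
          apply Finset.filter_eq_empty_iff.2
          intro i hi
          obtain ⟨r, hr, _⟩ := hR1 i hi
          rw [hRe] at hr
          exact absurd hr (Finset.notMem_empty r)
        rw [this]
        simp
      · obtain ⟨r, hr⟩ := Finset.card_eq_one.1 (show R.card = 1 by omega)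
        rw [← hST r c]
        apply Finset.card_le_card
        intro i hi
        rw [mem_filter] at hi ⊢
        obtain ⟨r', hr', hir⟩ := hR1 i hi.1
        rw [hr, mem_singleton] at hr'
        subst hr'
        exact ⟨hi.1, hir, hi.2⟩
    have h2 : T c ⊆ P.filter fun i => i ∈ T c := fun i hi => mem_filter.2 ⟨hTP c hi, hi⟩
    have h3 := Finset.card_le_card h2
    have h4 := hTk c
    omega
  have hC3 : 2 ≤ C.card := by
    by_contra hlt
    obtain ⟨r⟩ := ‹Nonempty ρ›
    have h1 : (P.filter fun i => i ∈ S r).card ≤ 1 := by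
      rcases Nat.lt_or_ge C.card 1 with h0 | h0
      · have hCe : C = ∅ := Finset.card_eq_zero.1 (by omega)
        have : P.filter (fun i => i ∈ S r) = ∅ := by
          apply Finset.filter_eq_empty_iff.2
          intro i hi
          obtain ⟨c, hc, _⟩ := hC1 i hi
          rw [hCe] at hc
          exact absurd hc (Finset.notMem_empty c)
        rw [this]
        simp
      · obtain ⟨c, hc⟩ := Finset.card_eq_one.1 (show C.card = 1 by omega)
        rw [← hST r c]
        apply Finset.card_le_card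
        intro i hi
        rw [mem_filter] at hi ⊢
        obtain ⟨c', hc', hic⟩ := hC1 i hi.1
        rw [hc, mem_singleton] at hc'
        subst hc'
        exact ⟨hi.1, hi.2, hic⟩
    have h2 : S r ⊆ P.filter fun i => i ∈ S r := fun i hi => mem_filter.2 ⟨hSP r hi, hi⟩
    have h3 := Finset.card_le_card h2
    have h4 := hSk r
    omega
  obtain ⟨r₀, hr₀⟩ : R.Nonempty := Finset.card_pos.1 (by omega)
  exact arith _ _ _ k hk hR3 hC3 (count_bound P S T hST hSP hTP R C k hSk hTk hR1 hC1)
    (rank_bound P S T hST R C r₀ hr₀ hR2 hC2)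

end lower

lemma meets_row {n : ℕ} (B₁ B₂ : Finset (Fin n)) (h1 : B₁.Nonempty) (j : Fin n) :
    ((B₁ ×ˢ B₂) ∩ row j).Nonempty ↔ j ∈ B₂ := by
  constructor
  · rintro ⟨⟨a, b⟩, hx⟩
    simp only [row, mem_inter, mem_product, mem_univ, mem_singleton, true_and] at hx
    rw [← hx.2]
    exact hx.1.2
  · intro hj
    obtain ⟨a, ha⟩ := h1
    exact ⟨(a, j), by simp [row, ha, hj]⟩

lemma meets_column {n : ℕ} (B₁ B₂ : Finset (Fin n)) (h2 : B₂.Nonempty) (i : Fin n) :
    ((B₁ ×ˢ B₂) ∩ column i).Nonempty ↔ i ∈ B₁ := by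
  constructor
  · rintro ⟨⟨a, b⟩, hx⟩
    simp only [column, mem_inter, mem_product, mem_univ, mem_singleton, and_true] at hx
    rw [← hx.2]
    exact hx.1.1
  · intro hi
    obtain ⟨b, hb⟩ := h2
    exact ⟨(i, b), by simp [column, hb, hi]⟩

theorem lower_bound (n k : ℕ) (hn : 1 ≤ n) (hk : 2 ≤ k) (P : Finset (Finset (Fin n × Fin n)))
    (hP : IsPiercingPartition n k P) : 4 * (k - 1) ≤ P.card := by
  classical
  have : Nonempty (Fin n) := ⟨⟨0, by omega⟩⟩
  refine abstract_bound (ρ := Fin n) (κ := Fin n) P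
    (fun j => P.filter fun B => (B ∩ row j).Nonempty)
    (fun i => P.filter fun B => (B ∩ column i).Nonempty) ?_
    (fun j => filter_subset _ _) (fun i => filter_subset _ _) k hk hP.rows hP.columns ?_ ?_
  · intro j i
    obtain ⟨B, ⟨hB, hxB⟩, huniq⟩ := hP.partition (i, j)
    rw [Finset.card_eq_one]
    refine ⟨B, ?_⟩
    ext B'
    simp only [mem_filter, mem_singleton]
    constructor
    · rintro ⟨hB', ⟨-, h1⟩, -, h2⟩
      obtain ⟨B₁, B₂, hn1, hn2, -, -, rfl⟩ := hP.proper B' hB'
      apply huniq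
      refine ⟨hB', ?_⟩
      rw [mem_product]
      exact ⟨(meets_column B₁ B₂ hn2 i).1 h2, (meets_row B₁ B₂ hn1 j).1 h1⟩
    · rintro rfl
      exact ⟨hB, ⟨hB, ⟨(i, j), by simp [row, hxB]⟩⟩, hB, ⟨(i, j), by simp [column, hxB]⟩⟩
  · intro B hB
    obtain ⟨B₁, B₂, hn1, ⟨j, hj⟩, -, -, rfl⟩ := hP.proper B hB
    exact ⟨j, mem_filter.2 ⟨hB, (meets_row B₁ B₂ hn1 j).2 hj⟩⟩
  · intro B hB
    obtain ⟨B₁, B₂, ⟨i, hi⟩, hn2, -, -, rfl⟩ := hP.proper B hB
    exact ⟨i, mem_filter.2 ⟨hB, (meets_column B₁ B₂ hn2 i).2 hi⟩⟩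

/-! ### The upper bound -/

section upper

variable {n t : ℕ}

/-- The two halves of the coordinates: `true` for the coordinates below `t`. -/
def side (t : ℕ) (x : Fin n) : Bool := decide (x.val < t)

/-- The number of a coordinate in its half. -/
def idx (t : ℕ) (ht : 0 < t) (x : Fin n) : Fin t :=
  if h : x.val < t then ⟨x.val, h⟩ else ⟨min (x.val - t) (t - 1), by omega⟩

/-- The `4 t` boxes: two of the four blocks are cut into `t` strips of one direction, and the other
two into `t` strips of the other direction. -/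
def box (n t : ℕ) (ht : 0 < t) (q : Bool × Bool × Fin t) : Finset (Fin n × Fin n) :=
  if q.1 = q.2.1 then
    (univ.filter fun x : Fin n => side t x = q.1) ×ˢ
      (univ.filter fun y : Fin n => side t y = q.2.1 ∧ idx t ht y = q.2.2)
  else
    (univ.filter fun x : Fin n => side t x = q.1 ∧ idx t ht x = q.2.2) ×ˢ
      (univ.filter fun y : Fin n => side t y = q.2.1)

lemma mem_box (ht : 0 < t) (q : Bool × Bool × Fin t) (x y : Fin n) :
    (x, y) ∈ box n t ht q ↔ side t x = q.1 ∧ side t y = q.2.1 ∧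
      (if q.1 = q.2.1 then idx t ht y else idx t ht x) = q.2.2 := by
  unfold box
  split_ifs with h
  · simp only [mem_product, mem_filter, mem_univ, true_and]
  · simp only [mem_product, mem_filter, mem_univ, true_and]
    tauto

lemma exists_side_idx (ht : 0 < t) (hn : 2 * t ≤ n) (b : Bool) (j : Fin t) :
    ∃ x : Fin n, side t x = b ∧ idx t ht x = j := by
  cases b
  · refine ⟨⟨j.val + t, by omega⟩, by simp [side], ?_⟩
    have h1 : ¬ (j.val + t < t) := by omega
    apply Fin.ext
    simp only [idx, h1, dif_neg, not_false_iff]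
    have := j.isLt
    simp only [Nat.add_sub_cancel]
    omega
  · refine ⟨⟨j.val, by omega⟩, by simp [side], ?_⟩
    apply Fin.ext
    simp [idx]

lemma box_nonempty (ht : 0 < t) (hn : 2 * t ≤ n) (q : Bool × Bool × Fin t) :
    ∃ x y : Fin n, (x, y) ∈ box n t ht q := by
  obtain ⟨x, hx1, hx2⟩ := exists_side_idx ht hn q.1 q.2.2
  obtain ⟨y, hy1, hy2⟩ := exists_side_idx ht hn q.2.1 q.2.2
  refine ⟨x, y, (mem_box ht q x y).2 ⟨hx1, hy1, ?_⟩⟩
  split_ifs
  · exact hy2
  · exact hx2

lemma box_injective (ht : 0 < t) (hn : 2 * t ≤ n) : Function.Injective (box n t ht) := by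
  rintro ⟨a, b, j⟩ ⟨a', b', j'⟩ h
  obtain ⟨x, y, hxy⟩ := box_nonempty (n := n) ht hn (a, b, j)
  have h1 := (mem_box ht _ x y).1 hxy
  rw [h] at hxy
  have h2 := (mem_box ht _ x y).1 hxy
  simp only at h1 h2
  obtain ⟨rfl, rfl, h3⟩ := h1
  obtain ⟨rfl, rfl, h4⟩ := h2
  rw [h3] at h4
  rw [h4]

lemma box_proper (ht : 0 < t) (hn : 2 * t ≤ n) (q : Bool × Bool × Fin t) :
    IsProperBox (box n t ht q) := by
  obtain ⟨x, y, hxy⟩ := box_nonempty (n := n) ht hn q
  obtain ⟨x', hx', -⟩ := exists_side_idx (n := n) ht hn (!q.1) q.2.2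
  obtain ⟨y', hy', -⟩ := exists_side_idx (n := n) ht hn (!q.2.1) q.2.2
  have hxx : side t x' ≠ q.1 := by
    rw [hx']
    cases q.1 <;> simp
  have hyy : side t y' ≠ q.2.1 := by
    rw [hy']
    cases q.2.1 <;> simp
  unfold box at hxy ⊢
  split_ifs at hxy ⊢ with h
  · refine ⟨_, _, ⟨x, (mem_product.1 hxy).1⟩, ⟨y, (mem_product.1 hxy).2⟩, ?_, ?_, rfl⟩
    · intro hu
      have := hu ▸ mem_univ x'
      rw [mem_filter] at this
      exact hxx this.2
    · intro hu
      have := hu ▸ mem_univ y'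
      rw [mem_filter] at this
      exact hyy this.2.1
  · refine ⟨_, _, ⟨x, (mem_product.1 hxy).1⟩, ⟨y, (mem_product.1 hxy).2⟩, ?_, ?_, rfl⟩
    · intro hu
      have := hu ▸ mem_univ x'
      rw [mem_filter] at this
      exact hxx this.2.1
    · intro hu
      have := hu ▸ mem_univ y'
      rw [mem_filter] at this
      exact hyy this.2

/-- `t + 1` keys. -/
def keys (t : ℕ) (q₀ : Bool × Bool × Fin t) (f : Fin t → Bool × Bool × Fin t) :
    Finset (Bool × Bool × Fin t) := insert q₀ (univ.image f)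

lemma card_keys (q₀ : Bool × Bool × Fin t) (f : Fin t → Bool × Bool × Fin t)
    (hf : Function.Injective f) (h : ∀ j, f j ≠ q₀) : (keys t q₀ f).card = t + 1 := by
  unfold keys
  rw [card_insert_of_notMem, card_image_of_injective _ hf]
  · simp
  · intro hmem
    obtain ⟨j, -, hj⟩ := mem_image.1 hmem
    exact h j hj

theorem upper_bound (ht : 0 < t) (hn : 2 * t ≤ n) :
    ∃ P : Finset (Finset (Fin n × Fin n)), IsPiercingPartition n (t + 1) P ∧ P.card = 4 * t := by
  classical
  refine ⟨univ.image (box n t ht), ⟨?_, ?_, ?_, ?_⟩, ?_⟩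
  · intro B hB
    obtain ⟨q, -, rfl⟩ := mem_image.1 hB
    exact box_proper ht hn q
  · rintro ⟨x, y⟩
    refine ⟨box n t ht (side t x, side t y,
      if side t x = side t y then idx t ht y else idx t ht x),
      ⟨mem_image_of_mem _ (mem_univ _), (mem_box ht _ x y).2 ⟨rfl, rfl, rfl⟩⟩, ?_⟩
    rintro B ⟨hB, hxB⟩
    obtain ⟨q, -, rfl⟩ := mem_image.1 hB
    obtain ⟨h1, h2, h3⟩ := (mem_box ht q x y).1 hxB
    congr 1
    ext
    · exact h1.symm
    · exact h2.symm
    · rw [← h3, h1, h2]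
  · intro y
    have hsub : (keys t (side t y, side t y, idx t ht y)
        (fun j => (!(side t y), side t y, j))).image (box n t ht) ⊆
        (univ.image (box n t ht)).filter fun B => (B ∩ row y).Nonempty := by
      intro B hB
      obtain ⟨q, hq, rfl⟩ := mem_image.1 hB
      rw [mem_filter]
      refine ⟨mem_image_of_mem _ (mem_univ _), ?_⟩
      rcases mem_insert.1 hq with rfl | hq
      · obtain ⟨x, hx1, hx2⟩ := exists_side_idx (n := n) ht hn (side t y) (idx t ht y)
        refine ⟨(x, y), mem_inter.2 ⟨(mem_box ht _ x y).2 ⟨hx1, rfl, ?_⟩, by simp [row]⟩⟩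
        simp
      · obtain ⟨j, -, rfl⟩ := mem_image.1 hq
        obtain ⟨x, hx1, hx2⟩ := exists_side_idx (n := n) ht hn (!(side t y)) j
        refine ⟨(x, y), mem_inter.2 ⟨(mem_box ht _ x y).2 ⟨hx1, rfl, ?_⟩, by simp [row]⟩⟩
        simp only
        rw [if_neg, hx2]
        cases side t y <;> simp
    have h1 := card_le_card hsub
    rw [card_image_of_injective _ (box_injective ht hn), card_keys] at h1
    · exact h1
    · intro j j' h
      simpa using h
    · intro j h
      have := congrArg Prod.fst h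
      simp at this
  · intro x
    have hsub : (keys t (side t x, !(side t x), idx t ht x)
        (fun j => (side t x, side t x, j))).image (box n t ht) ⊆
        (univ.image (box n t ht)).filter fun B => (B ∩ column x).Nonempty := by
      intro B hB
      obtain ⟨q, hq, rfl⟩ := mem_image.1 hB
      rw [mem_filter]
      refine ⟨mem_image_of_mem _ (mem_univ _), ?_⟩
      rcases mem_insert.1 hq with rfl | hq
      · obtain ⟨y, hy1, hy2⟩ := exists_side_idx (n := n) ht hn (!(side t x)) (idx t ht x)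
        refine ⟨(x, y), mem_inter.2 ⟨(mem_box ht _ x y).2 ⟨rfl, hy1, ?_⟩, by simp [column]⟩⟩
        simp only
        rw [if_neg]
        cases side t x <;> simp
      · obtain ⟨j, -, rfl⟩ := mem_image.1 hq
        obtain ⟨y, hy1, hy2⟩ := exists_side_idx (n := n) ht hn (side t x) j
        refine ⟨(x, y), mem_inter.2 ⟨(mem_box ht _ x y).2 ⟨rfl, hy1, ?_⟩, by simp [column]⟩⟩
        simp [hy2]
    have h1 := card_le_card hsub
    rw [card_image_of_injective _ (box_injective ht hn), card_keys] at h1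
    · exact h1
    · intro j j' h
      simpa using h
    · intro j h
      have := congrArg (fun q => q.2.1) h
      simp at this
  · rw [card_image_of_injective _ (box_injective ht hn)]
    simp
    ring

end upper

lemma pBox_eq (n k : ℕ) (hk : 2 ≤ k) (hn : 2 * (k - 1) ≤ n) : pBox n k = 4 * (k - 1) := by
  unfold pBox
  apply le_antisymm
  · apply Nat.sInf_le
    obtain ⟨P, hP, hc⟩ := upper_bound (n := n) (t := k - 1) (by omega) hn
    rw [show k - 1 + 1 = k by omega] at hP
    exact ⟨P, hP, hc⟩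
  · apply le_csInf
    · obtain ⟨P, hP, hc⟩ := upper_bound (n := n) (t := k - 1) (by omega) hn
      rw [show k - 1 + 1 = k by omega] at hP
      exact ⟨_, P, hP, rfl⟩
    · rintro m ⟨P, hP, rfl⟩
      exact lower_bound n k (by omega) hk P hP

/-- **Answer to Q1: yes, `p_box(2, k) = 4 (k - 1)`.** For every `k ≥ 2` the limit of
`p_box(n, 2, k)` as `n → ∞` is `4 (k - 1)`; in fact `p_box(n, 2, k) = 4 (k - 1)` for all
`n ≥ 2 (k - 1)`, and for every `n ≥ 1` every partition of `[n]²` into proper boxes with the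
`k`-piercing property has at least `4 (k - 1)` parts. -/
theorem result (k : ℕ) (hk : 2 ≤ k) :
    Tendsto (fun n => pBox n k) atTop (𝓝 (4 * (k - 1))) ∧
    (∀ n, 2 * (k - 1) ≤ n → pBox n k = 4 * (k - 1)) ∧
    (∀ n, 1 ≤ n → ∀ P : Finset (Finset (Fin n × Fin n)), IsPiercingPartition n k P →
      4 * (k - 1) ≤ P.card) := by
  refine ⟨?_, fun n hn => pBox_eq n k hk hn, fun n hn P hP => lower_bound n k hn hk P hP⟩
  apply tendsto_nhds_of_eventually_eq
  filter_upwards [eventually_ge_atTop (2 * (k - 1))] with n hn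
  exact pBox_eq n k hk hn

end Pool.Agent.Results.MP_21d1af_co.BoxPiercing
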